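import Mathlib

/-!
Hitting lemma: a finite set `R` with `R + L ⊆ S` has a translate `t + L` containing at least
`|R| μ(L) / μ(S)` points of `R`.
-/

set_option autoImplicit false
set_option linter.unusedSectionVars false

open MeasureTheory Set

namespace Pool.Agent.Lib.MP_5e7226_co.AB

variable {E : Type*} [NormedAddCommGroup E] [NormedSpace ℝ E] [FiniteDimensional ℝ E]
  [MeasurableSpace E] [BorelSpace E] (μ : Measure E) [μ.IsAddHaarMeasure]

/-- indicator function of `L` -/
noncomputable def ind (L : Set E) : E → ℝ := L.indicator (fun _ => (1 : ℝ))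

omit [NormedSpace ℝ E] [FiniteDimensional ℝ E] [MeasurableSpace E] [BorelSpace E] in
lemma ind_nonneg (L : Set E) (x : E) : 0 ≤ ind L x := by
  unfold ind; exact indicator_nonneg (fun _ _ => zero_le_one) x

omit [NormedSpace ℝ E] [FiniteDimensional ℝ E] [MeasurableSpace E] [BorelSpace E] in
lemma ind_le_one (L : Set E) (x : E) : ind L x ≤ 1 := by
  unfold ind
  by_cases h : x ∈ L
  · simp [h]
  · simp [h]

lemma integrable_ind {L : Set E} (hL : MeasurableSet L) (hfin : μ L ≠ ⊤) :
    Integrable (ind L) μ := by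
  unfold ind
  exact (integrable_indicator_iff hL).2 (integrableOn_const (hs := hfin))

lemma integral_ind {L : Set E} (hL : MeasurableSet L) : ∫ x, ind L x ∂μ = μ.real L := by
  unfold ind
  rw [integral_indicator hL]
  simp

lemma integrable_left {L : Set E} (hL : MeasurableSet L) (hfin : μ L ≠ ⊤) (x : E) :
    Integrable (fun t => ind L (x - t)) μ :=
  (integrable_ind μ hL hfin).comp_sub_left x

lemma integrable_right {L : Set E} (hL : MeasurableSet L) (hfin : μ L ≠ ⊤) (x : E) :
    Integrable (fun t => ind L (t - x)) μ :=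
  (integrable_ind μ hL hfin).comp_sub_right x

lemma integrable_mul_of {f g : E → ℝ} (hf : Integrable f μ) (hg : Integrable g μ)
    (hg0 : ∀ x, 0 ≤ g x) (hg1 : ∀ x, g x ≤ 1) : Integrable (fun x => f x * g x) μ := by
  refine hf.mono (hf.aestronglyMeasurable.mul hg.aestronglyMeasurable) ?_
  refine Filter.Eventually.of_forall (fun x => ?_)
  rw [norm_mul]
  have h1 : ‖g x‖ ≤ 1 := by rw [Real.norm_eq_abs, abs_of_nonneg (hg0 x)]; exact hg1 x
  calc ‖f x‖ * ‖g x‖ ≤ ‖f x‖ * 1 := mul_le_mul_of_nonneg_left h1 (norm_nonneg _)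
    _ = ‖f x‖ := mul_one _

/-- The energy identity: `∫ (∑ 1_L(x - t))² dt = ∫ (∑ 1_L(w - x))² dw`. -/
lemma energy {L : Set E} (hL : MeasurableSet L) (hfin : μ L ≠ ⊤) (R : Finset E) :
    ∫ t, (∑ x ∈ R, ind L (x - t)) ^ 2 ∂μ = ∫ w, (∑ x ∈ R, ind L (w - x)) ^ 2 ∂μ := by
  have h1 : ∀ t, (∑ x ∈ R, ind L (x - t)) ^ 2
      = ∑ x ∈ R, ∑ y ∈ R, ind L (x - t) * ind L (y - t) := by
    intro t; rw [sq, Finset.sum_mul_sum]
  have h2 : ∀ w, (∑ x ∈ R, ind L (w - x)) ^ 2
      = ∑ x ∈ R, ∑ y ∈ R, ind L (w - x) * ind L (w - y) := by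
    intro t; rw [sq, Finset.sum_mul_sum]
  simp only [h1, h2]
  have i1 : ∀ x y : E, Integrable (fun t => ind L (x - t) * ind L (y - t)) μ := fun x y =>
    integrable_mul_of μ (integrable_left μ hL hfin x) (integrable_left μ hL hfin y)
      (fun _ => ind_nonneg _ _) (fun _ => ind_le_one _ _)
  have i2 : ∀ x y : E, Integrable (fun w => ind L (w - x) * ind L (w - y)) μ := fun x y =>
    integrable_mul_of μ (integrable_right μ hL hfin x) (integrable_right μ hL hfin y)
      (fun _ => ind_nonneg _ _) (fun _ => ind_le_one _ _)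
  rw [integral_finsetSum _ (fun x _ => integrable_finsetSum _ (fun y _ => i1 x y)),
    integral_finsetSum _ (fun x _ => integrable_finsetSum _ (fun y _ => i2 x y))]
  refine Finset.sum_congr rfl (fun x _ => ?_)
  rw [integral_finsetSum _ (fun y _ => i1 x y), integral_finsetSum _ (fun y _ => i2 x y)]
  refine Finset.sum_congr rfl (fun y _ => ?_)
  rw [← integral_sub_left_eq_self (fun w => ind L (w - x) * ind L (w - y)) μ (x + y)]
  refine integral_congr_ae (Filter.Eventually.of_forall (fun t => ?_))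
  have e1 : x + y - t - x = y - t := by abel
  have e2 : x + y - t - y = x - t := by abel
  simp only [e1, e2]
  ring

/-- Hitting lemma. -/
theorem exists_hit {L S : Set E} (hL : MeasurableSet L) (hfin : μ L ≠ ⊤)
    (hS : MeasurableSet S) (hSfin : μ S ≠ ⊤) (hL0 : 0 < μ.real L) (R : Finset E)
    (hR : R.Nonempty) (hRS : ∀ x ∈ R, ∀ w, w - x ∈ L → w ∈ S) :
    ∃ t : E, (R.card : ℝ) * (μ.real L / μ.real S) ≤ ∑ x ∈ R, ind L (x - t) := by
  classical
  -- the sum is a natural number
  have hnat : ∀ t, ∑ x ∈ R, ind L (x - t) = ((R.filter (fun x => x - t ∈ L)).card : ℝ) := by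
    intro t
    rw [Finset.card_filter]
    push_cast
    refine Finset.sum_congr rfl (fun x _ => ?_)
    unfold ind
    by_cases h : x - t ∈ L <;> simp [h]
  obtain ⟨t, ht⟩ : ∃ t, ∀ t', (R.filter (fun x => x - t' ∈ L)).card
      ≤ (R.filter (fun x => x - t ∈ L)).card := by
    have hne : (Set.range (fun t : E => (R.filter (fun x => x - t ∈ L)).card)).Nonempty :=
      ⟨_, ⟨0, rfl⟩⟩
    have hbd : BddAbove (Set.range (fun t : E => (R.filter (fun x => x - t ∈ L)).card)) := by
      refine ⟨R.card, ?_⟩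
      rintro _ ⟨t, rfl⟩
      exact Finset.card_filter_le _ _
    obtain ⟨t, ht⟩ := Nat.sSup_mem hne hbd
    refine ⟨t, fun t' => ?_⟩
    have := le_csSup hbd ⟨t', rfl⟩
    simp only at ht this
    rw [ht]
    exact this
  refine ⟨t, ?_⟩
  set m : ℝ := ∑ x ∈ R, ind L (x - t) with hm
  have hmax : ∀ t', ∑ x ∈ R, ind L (x - t') ≤ m := by
    intro t'
    rw [hm, hnat, hnat]
    exact_mod_cast ht t'
  set v := μ.real L with hv
  set s := μ.real S with hs
  have hRc : 0 < (R.card : ℝ) := by exact_mod_cast hR.card_pos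
  -- `∫ h = |R| v`
  have ih : Integrable (fun t => ∑ x ∈ R, ind L (x - t)) μ :=
    integrable_finsetSum _ (fun x _ => integrable_left μ hL hfin x)
  have iH : Integrable (fun w => ∑ x ∈ R, ind L (w - x)) μ :=
    integrable_finsetSum _ (fun x _ => integrable_right μ hL hfin x)
  have eh : ∫ t, ∑ x ∈ R, ind L (x - t) ∂μ = R.card * v := by
    rw [integral_finsetSum _ (fun x _ => integrable_left μ hL hfin x)]
    have : ∀ x ∈ R, ∫ t, ind L (x - t) ∂μ = v := by
      intro x _
      rw [integral_sub_left_eq_self (ind L) μ x, integral_ind μ hL]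
    rw [Finset.sum_congr rfl this, Finset.sum_const, nsmul_eq_mul]
  have eH : ∫ w, ∑ x ∈ R, ind L (w - x) ∂μ = R.card * v := by
    rw [integral_finsetSum _ (fun x _ => integrable_right μ hL hfin x)]
    have : ∀ x ∈ R, ∫ w, ind L (w - x) ∂μ = v := by
      intro x _
      rw [integral_sub_right_eq_self (ind L) x, integral_ind μ hL]
    rw [Finset.sum_congr rfl this, Finset.sum_const, nsmul_eq_mul]
  -- squares are integrable
  have ih2 : Integrable (fun t => (∑ x ∈ R, ind L (x - t)) ^ 2) μ := by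
    have h1 : ∀ t, (∑ x ∈ R, ind L (x - t)) ^ 2
        = ∑ x ∈ R, ∑ y ∈ R, ind L (x - t) * ind L (y - t) := by
      intro t; rw [sq, Finset.sum_mul_sum]
    simp only [h1]
    exact integrable_finsetSum _ (fun x _ => integrable_finsetSum _ (fun y _ =>
      integrable_mul_of μ (integrable_left μ hL hfin x) (integrable_left μ hL hfin y)
        (fun _ => ind_nonneg _ _) (fun _ => ind_le_one _ _)))
  have iH2 : Integrable (fun w => (∑ x ∈ R, ind L (w - x)) ^ 2) μ := by
    have h1 : ∀ w, (∑ x ∈ R, ind L (w - x)) ^ 2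
        = ∑ x ∈ R, ∑ y ∈ R, ind L (w - x) * ind L (w - y) := by
      intro t; rw [sq, Finset.sum_mul_sum]
    simp only [h1]
    exact integrable_finsetSum _ (fun x _ => integrable_finsetSum _ (fun y _ =>
      integrable_mul_of μ (integrable_right μ hL hfin x) (integrable_right μ hL hfin y)
        (fun _ => ind_nonneg _ _) (fun _ => ind_le_one _ _)))
  -- upper bound
  have up : ∫ t, (∑ x ∈ R, ind L (x - t)) ^ 2 ∂μ ≤ m * (R.card * v) := by
    rw [← eh, ← integral_const_mul]
    refine integral_mono ih2 (ih.const_mul m) (fun t => ?_)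
    have h0 : 0 ≤ ∑ x ∈ R, ind L (x - t) := Finset.sum_nonneg (fun x _ => ind_nonneg _ _)
    have := mul_le_mul_of_nonneg_right (hmax t) h0
    simp only
    rw [sq]
    exact this
  -- `S` is not a null set
  have hs0 : 0 < s := by
    obtain ⟨x, hx⟩ := hR
    have h1 : μ.real ((fun w => w - x) ⁻¹' L) = v := by
      rw [hv, Measure.real, Measure.real]
      congr 1
      exact (measurePreserving_sub_right μ x).measure_preimage hL.nullMeasurableSet
    have h2 : (fun w => w - x) ⁻¹' L ⊆ S := fun w hw => hRS x hx w hw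
    have h3 : μ.real ((fun w => w - x) ⁻¹' L) ≤ s := measureReal_mono h2 hSfin
    linarith
  -- lower bound
  have lo : (R.card * v) * (R.card * v / s) ≤ ∫ w, (∑ x ∈ R, ind L (w - x)) ^ 2 ∂μ := by
    set c : ℝ := R.card * v / s with hc
    have iS : Integrable (ind S) μ := integrable_ind μ hS hSfin
    have key : ∀ w, 2 * c * (∑ x ∈ R, ind L (w - x)) - c ^ 2 * ind S w
        ≤ (∑ x ∈ R, ind L (w - x)) ^ 2 := by
      intro w
      by_cases hw : w ∈ S
      · have : ind S w = 1 := by simp [ind, hw]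
        rw [this]
        nlinarith [sq_nonneg ((∑ x ∈ R, ind L (w - x)) - c)]
      · have h1 : ind S w = 0 := by simp [ind, hw]
        have h2 : ∑ x ∈ R, ind L (w - x) = 0 := by
          refine Finset.sum_eq_zero (fun x hx => ?_)
          have : w - x ∉ L := fun h => hw (hRS x hx w h)
          simp [ind, this]
        rw [h1, h2]
        simp
    have h3 : ∫ w, (2 * c * (∑ x ∈ R, ind L (w - x)) - c ^ 2 * ind S w) ∂μ
        ≤ ∫ w, (∑ x ∈ R, ind L (w - x)) ^ 2 ∂μ :=
      integral_mono ((iH.const_mul _).sub (iS.const_mul _)) iH2 key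
    rw [integral_sub (iH.const_mul _) (iS.const_mul _), integral_const_mul, integral_const_mul,
      eH, integral_ind μ hS] at h3
    refine le_trans (le_of_eq ?_) h3
    rw [← hs, hc]
    field_simp
    ring
  rw [← energy μ hL hfin R] at lo
  have h4 := lo.trans up
  have h5 : (R.card * v) * (R.card * v / s) ≤ (R.card * v) * m := by linarith
  have h6 : 0 < (R.card : ℝ) * v := mul_pos hRc hL0
  have h7 := le_of_mul_le_mul_left h5 h6
  calc (R.card : ℝ) * (v / s) = R.card * v / s := by ring
    _ ≤ m := h7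

end Pool.Agent.Lib.MP_5e7226_co.AB
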