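import Pool.Agent.Lib.MP_5e7226_co.AB.A1

/-!
Greedy covering of a finite set, symmetric parts of convex bodies, nets.
-/

set_option autoImplicit false
set_option linter.unusedSectionVars false

open MeasureTheory Set Module
open scoped Pointwise

namespace Pool.Agent.Lib.MP_5e7226_co.AB

variable {E : Type*} [NormedAddCommGroup E] [NormedSpace ℝ E] [FiniteDimensional ℝ E]
  [MeasurableSpace E] [BorelSpace E] (μ : Measure E) [μ.IsAddHaarMeasure]

/-- Greedy covering: if every nonempty subset of `Λ` can be hit in proportion `p` by a translate of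
`L`, then `n` translates leave at most `(1 - p)^n |Λ|` points of `Λ` uncovered. -/
lemma greedy {L : Set E} (Λ : Finset E) {p : ℝ} (hp1 : p ≤ 1)
    (hit : ∀ R : Finset E, R ⊆ Λ → R.Nonempty →
      ∃ t : E, (R.card : ℝ) * p ≤ ∑ x ∈ R, ind L (x - t)) (n : ℕ) :
    ∃ (t : Fin n → E) (R : Finset E), R ⊆ Λ ∧ (R.card : ℝ) ≤ (1 - p) ^ n * Λ.card ∧
      ∀ x ∈ Λ, x ∈ R ∨ ∃ i, x - t i ∈ L := by
  classical
  induction n with
  | zero => exact ⟨Fin.elim0, Λ, Finset.Subset.refl _, by simp, fun x hx => Or.inl hx⟩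
  | succ n ih =>
    obtain ⟨t, R, hR, hc, hcov⟩ := ih
    rcases R.eq_empty_or_nonempty with h0 | hne
    · refine ⟨Fin.snoc t 0, ∅, Finset.empty_subset _, ?_, fun x hx => ?_⟩
      · simp only [Finset.card_empty, Nat.cast_zero]
        have : 0 ≤ 1 - p := by linarith
        positivity
      · rcases hcov x hx with h | ⟨i, hi⟩
        · rw [h0] at h; exact absurd h (Finset.notMem_empty _)
        · exact Or.inr ⟨i.castSucc, by simpa using hi⟩
    · obtain ⟨s, hs⟩ := hit R hR hne
      refine ⟨Fin.snoc t s, R.filter (fun x => x - s ∉ L), (Finset.filter_subset _ _).trans hR, ?_,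
        fun x hx => ?_⟩
      · have h1 : ∑ x ∈ R, ind L (x - s) = ((R.filter (fun x => x - s ∈ L)).card : ℝ) := by
          rw [Finset.card_filter]
          push_cast
          refine Finset.sum_congr rfl (fun x _ => ?_)
          unfold ind
          by_cases h : x - s ∈ L <;> simp [h]
        rw [h1] at hs
        have h2 : (R.filter (fun x => x - s ∈ L)).card + (R.filter (fun x => x - s ∉ L)).card
            = R.card := Finset.card_filter_add_card_filter_not (fun x => x - s ∈ L)
        have h3 : ((R.filter (fun x => x - s ∈ L)).card : ℝ)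
            + ((R.filter (fun x => x - s ∉ L)).card : ℝ) = R.card := by exact_mod_cast h2
        have h4 : 0 ≤ 1 - p := by linarith
        have h5 : ((R.filter (fun x => x - s ∉ L)).card : ℝ) ≤ (1 - p) * R.card := by linarith
        calc ((R.filter (fun x => x - s ∉ L)).card : ℝ) ≤ (1 - p) * R.card := h5
          _ ≤ (1 - p) * ((1 - p) ^ n * Λ.card) := mul_le_mul_of_nonneg_left hc h4
          _ = (1 - p) ^ (n + 1) * Λ.card := by ring
      · rcases hcov x hx with h | ⟨i, hi⟩
        · by_cases hx2 : x - s ∈ L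
          · exact Or.inr ⟨Fin.last n, by simpa using hx2⟩
          · exact Or.inl (Finset.mem_filter.2 ⟨h, hx2⟩)
        · exact Or.inr ⟨i.castSucc, by simpa using hi⟩

/-- Number of translates for a complete cover. -/
lemma greedy_cover {L : Set E} (Λ : Finset E) {p : ℝ} (hp1 : p ≤ 1)
    (hit : ∀ R : Finset E, R ⊆ Λ → R.Nonempty →
      ∃ t : E, (R.card : ℝ) * p ≤ ∑ x ∈ R, ind L (x - t)) {n : ℕ}
    (hn : Real.log Λ.card < n * p) :
    ∃ t : Fin n → E, ∀ x ∈ Λ, ∃ i, x - t i ∈ L := by
  obtain ⟨t, R, hR, hc, hcov⟩ := greedy Λ hp1 hit n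
  refine ⟨t, fun x hx => ?_⟩
  rcases hcov x hx with h | h
  · exfalso
    have h1 : (1 : ℝ) ≤ R.card := by
      exact_mod_cast Finset.card_pos.2 ⟨x, h⟩
    have hΛ : (0 : ℝ) < Λ.card := by
      exact_mod_cast Finset.card_pos.2 ⟨x, hx⟩
    have h2 : (1 - p) ^ n ≤ Real.exp (-(n * p)) := by
      have : 1 - p ≤ Real.exp (-p) := by
        have := Real.add_one_le_exp (-p); linarith
      calc (1 - p) ^ n ≤ (Real.exp (-p)) ^ n := pow_le_pow_left₀ (by linarith) this n
        _ = Real.exp (-(n * p)) := by rw [← Real.exp_nat_mul]; ring_nf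
    have h3 : Real.exp (-(n * p)) < Real.exp (-Real.log Λ.card) :=
      Real.exp_lt_exp.2 (by linarith)
    rw [Real.exp_neg (Real.log _), Real.exp_log hΛ] at h3
    have h4 : (1 - p) ^ n * Λ.card < (Λ.card : ℝ)⁻¹ * Λ.card :=
      mul_lt_mul_of_pos_right (h2.trans_lt h3) hΛ
    rw [inv_mul_cancel₀ hΛ.ne'] at h4
    linarith
  · exact h

/-- A convex body has a symmetric part (about some `c`) of volume at least `2^(-d)` times its own. -/
lemma exists_symmetric_part {L : Set E} (hc : Convex ℝ L) (hL : MeasurableSet L)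
    (hfin : μ L ≠ ⊤) (h0 : μ L ≠ 0) :
    ∃ c : E, (1 / 2) ^ finrank ℝ E * μ.real L ≤ μ.real {v | c + v ∈ L ∧ c - v ∈ L} := by
  classical
  -- the autoconvolution
  set φ : E → ENNReal := fun z => μ {x | x ∈ L ∧ z - x ∈ L} with hφ
  have hint : ∫⁻ z, φ z ∂μ = μ L * μ L := by
    have h1 : ∀ z, φ z = ∫⁻ x, L.indicator 1 x * L.indicator 1 (z - x) ∂μ := by
      intro z
      have hm : MeasurableSet {x | x ∈ L ∧ z - x ∈ L} :=
        hL.inter ((measurable_const.sub measurable_id) hL)
      rw [hφ]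
      simp only
      rw [← lintegral_indicator_one hm]
      refine lintegral_congr (fun x => ?_)
      by_cases hx : x ∈ L <;> by_cases hy : z - x ∈ L <;> simp [indicator, hx, hy]
    simp only [h1]
    rw [lintegral_lintegral_swap]
    · have h2 : ∀ x, ∫⁻ z, L.indicator (1 : E → ENNReal) x * L.indicator 1 (z - x) ∂μ
          = L.indicator 1 x * μ L := by
        intro x
        have hmz : Measurable (fun z => L.indicator (1 : E → ENNReal) (z - x)) :=
          (measurable_one.indicator hL).comp (measurable_id.sub measurable_const)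
        rw [lintegral_const_mul _ hmz]
        rw [lintegral_sub_right_eq_self (fun z => L.indicator (1 : E → ENNReal) z) x,
          lintegral_indicator_one hL]
      simp only [h2]
      rw [lintegral_mul_const _ (measurable_one.indicator hL), lintegral_indicator_one hL]
    · refine Measurable.aemeasurable ?_
      refine ((measurable_one.indicator hL).comp measurable_snd).mul
        ((measurable_one.indicator hL).comp (measurable_fst.sub measurable_snd))
  have hsup : ∀ z, z ∉ (2 : ℝ) • L → φ z = 0 := by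
    intro z hz
    have : {x | x ∈ L ∧ z - x ∈ L} = ∅ := by
      ext x
      simp only [mem_ofPred_eq, mem_empty_iff_false, iff_false, not_and]
      intro hx hzx
      apply hz
      refine ⟨(1 / 2 : ℝ) • x + (1 / 2 : ℝ) • (z - x), hc hx hzx (by norm_num) (by norm_num)
        (by norm_num), ?_⟩
      simp only
      rw [← smul_add, smul_smul, add_sub_cancel]
      norm_num
    rw [hφ]; simp only [this, measure_empty]
  have h2L : μ ((2 : ℝ) • L) = ENNReal.ofReal (2 ^ finrank ℝ E) * μ L := by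
    rw [Measure.addHaar_smul]
    congr 2
    rw [abs_of_nonneg (by positivity)]
  have h2m : MeasurableSet ((2 : ℝ) • L) := hL.const_smul₀ 2
  have hset : ∫⁻ z in (2 : ℝ) • L, φ z ∂μ = μ L * μ L := by
    rw [← hint, ← lintegral_indicator h2m]
    refine lintegral_congr (fun z => ?_)
    by_cases hz : z ∈ (2 : ℝ) • L
    · simp [hz]
    · simp [hz, hsup z hz]
  have h2pos : μ ((2 : ℝ) • L) ≠ 0 := by
    rw [h2L]
    refine mul_ne_zero ?_ h0
    simp
  obtain ⟨z, _, hz⟩ := exists_setLAverage_le h2pos h2m.nullMeasurableSet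
    (f := φ) (by rw [hset]; exact ENNReal.mul_ne_top hfin hfin)
  rw [setLAverage_eq, hset, h2L] at hz
  refine ⟨(1 / 2 : ℝ) • z, ?_⟩
  -- translate
  have hφz : φ z = μ {v | (1 / 2 : ℝ) • z + v ∈ L ∧ (1 / 2 : ℝ) • z - v ∈ L} := by
    have hm : MeasurableSet {x | x ∈ L ∧ z - x ∈ L} :=
      hL.inter ((measurable_const.sub measurable_id) hL)
    rw [hφ]
    simp only
    rw [← (measurePreserving_add_left μ ((1 / 2 : ℝ) • z)).measure_preimage hm.nullMeasurableSet]
    congr 1
    ext v
    have : z - ((1 / 2 : ℝ) • z + v) = (1 / 2 : ℝ) • z - v := by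
      have h2 : z = (1 / 2 : ℝ) • z + (1 / 2 : ℝ) • z := by
        rw [← add_smul]; norm_num
      nth_rewrite 1 [h2]
      abel
    simp only [mem_preimage, mem_ofPred_eq, this]
  rw [hφz] at hz
  have hfinφ : μ {v | (1 / 2 : ℝ) • z + v ∈ L ∧ (1 / 2 : ℝ) • z - v ∈ L} ≠ ⊤ := by
    rw [← hφz]
    refine ne_top_of_le_ne_top hfin ?_
    rw [hφ]
    exact measure_mono (fun x hx => hx.1)
  have h3 := ENNReal.toReal_mono hfinφ hz
  rw [ENNReal.toReal_div, ENNReal.toReal_mul, ENNReal.toReal_mul,
    ENNReal.toReal_ofReal (by positivity)] at h3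
  have hL0 : 0 < (μ L).toReal := ENNReal.toReal_pos h0 hfin
  rw [Measure.real, Measure.real]
  refine le_trans (le_of_eq ?_) h3
  rw [one_div, inv_pow]
  field_simp

/-- Nets. -/
lemma exists_net {L : Set E} (hc : Convex ℝ L) (hL : IsCompact L) (h0 : μ L ≠ 0) {δ : ℝ}
    (hδ : 0 < δ) :
    ∃ (c : E) (Λ : Finset E), (∀ y ∈ Λ, y ∈ L) ∧
      (Λ.card : ℝ) ≤ (4 / δ + 2) ^ finrank ℝ E ∧
      ∀ x ∈ L, ∃ y ∈ Λ, ∃ ℓ ∈ L, x = y + δ • (ℓ - c) := by
  classical
  have hm : MeasurableSet L := hL.isClosed.measurableSet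
  have hfin : μ L ≠ ⊤ := hL.measure_lt_top.ne
  obtain ⟨c, hcM⟩ := exists_symmetric_part μ hc hm hfin h0
  set M : Set E := {v | c + v ∈ L ∧ c - v ∈ L} with hM
  have hMm : MeasurableSet M :=
    (measurable_const.add measurable_id hm).inter (measurable_const.sub measurable_id hm)
  have hMfin : μ M ≠ ⊤ := by
    have h1 : M ⊆ (fun v => c + v) ⁻¹' L := fun v hv => hv.1
    refine ne_top_of_le_ne_top ?_ (measure_mono h1)
    rw [(measurePreserving_add_left μ c).measure_preimage hm.nullMeasurableSet]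
    exact hfin
  have hL0 : 0 < μ.real L := ENNReal.toReal_pos h0 hfin
  have hMsymm : ∀ v ∈ M, -v ∈ M := by
    intro v hv
    refine ⟨?_, ?_⟩
    · have := hv.2; rwa [sub_eq_add_neg] at this
    · have := hv.1; rwa [sub_neg_eq_add]
  have hMconv : ∀ v ∈ M, ∀ w ∈ M, (1 / 2 : ℝ) • (v + w) ∈ M := by
    intro v hv w hw
    refine ⟨?_, ?_⟩
    · have := hc hv.1 hw.1 (a := 1 / 2) (b := 1 / 2) (by norm_num) (by norm_num) (by norm_num)
      convert this using 1
      module
    · have := hc hv.2 hw.2 (a := 1 / 2) (b := 1 / 2) (by norm_num) (by norm_num) (by norm_num)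
      convert this using 1
      module
  -- separated sets are small
  have hcard : ∀ F : Finset E, (∀ y ∈ F, y ∈ L) →
      (∀ x ∈ F, ∀ y ∈ F, x ≠ y → ∀ v ∈ M, x ≠ y + δ • v) →
        (F.card : ℝ) ≤ (4 / δ + 2) ^ finrank ℝ E := by
    intro F hF hsep
    have hdisj : (F : Set E).PairwiseDisjoint (fun y => (fun t => t - y) ⁻¹' ((δ / 2) • M)) := by
      intro x hx y hy hxy
      rw [Function.onFun, Set.disjoint_left]
      rintro t ⟨v, hv, hv'⟩ ⟨w, hw, hw'⟩
      simp only at hv' hw'
      refine hsep x hx y hy hxy ((1 / 2 : ℝ) • (w + -v)) (hMconv w hw _ (hMsymm v hv)) ?_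
      have h1 : x = t - (δ / 2) • v := by rw [hv']; abel
      have h2 : y = t - (δ / 2) • w := by rw [hw']; abel
      rw [h1, h2]
      module
    have hmeas : ∀ y ∈ F, MeasurableSet ((fun t => t - y) ⁻¹' ((δ / 2) • M)) := fun y _ =>
      (measurable_id.sub measurable_const) (hMm.const_smul₀ _)
    have hsub : (⋃ y ∈ F, (fun t => t - y) ⁻¹' ((δ / 2) • M))
        ⊆ (fun t => t + (δ / 2) • c) ⁻¹' ((1 + δ / 2) • L) := by
      intro t ht
      simp only [mem_iUnion] at ht
      obtain ⟨y, hy, v, hv, hv'⟩ := ht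
      simp only at hv'
      refine ⟨(1 / (1 + δ / 2)) • y + ((δ / 2) / (1 + δ / 2)) • (c + v),
        hc (hF y hy) hv.1 (by positivity) (by positivity) (by field_simp), ?_⟩
      simp only
      have h1 : t = y + (δ / 2) • v := by rw [hv']; abel
      have h2 : (1 + δ / 2 : ℝ) ≠ 0 := by positivity
      rw [h1, smul_add, smul_smul, smul_smul, mul_one_div_cancel h2, one_smul,
        mul_div_cancel₀ _ h2]
      module
    have h1 := measure_mono (μ := μ) hsub
    rw [measure_biUnion_finset hdisj hmeas] at h1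
    have h2 : ∀ y ∈ F, μ ((fun t => t - y) ⁻¹' ((δ / 2) • M))
        = ENNReal.ofReal ((δ / 2) ^ finrank ℝ E) * μ M := by
      intro y _
      rw [(measurePreserving_sub_right μ y).measure_preimage
        (hMm.const_smul₀ _).nullMeasurableSet, Measure.addHaar_smul,
        abs_of_nonneg (by positivity)]
    rw [Finset.sum_congr rfl h2, Finset.sum_const,
      (measurePreserving_add_right μ ((δ / 2) • c)).measure_preimage
        (hm.const_smul₀ _).nullMeasurableSet, Measure.addHaar_smul,
        abs_of_nonneg (by positivity), nsmul_eq_mul] at h1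
    have h3 := ENNReal.toReal_mono
      (ENNReal.mul_ne_top ENNReal.ofReal_ne_top hfin) h1
    rw [ENNReal.toReal_mul, ENNReal.toReal_mul, ENNReal.toReal_mul, ENNReal.toReal_natCast,
      ENNReal.toReal_ofReal (by positivity), ENNReal.toReal_ofReal (by positivity)] at h3
    change (F.card : ℝ) * ((δ / 2) ^ finrank ℝ E * μ.real M)
      ≤ (1 + δ / 2) ^ finrank ℝ E * μ.real L at h3
    have h4 : (F.card : ℝ) * ((δ / 2) ^ finrank ℝ E * ((1 / 2) ^ finrank ℝ E * μ.real L))
        ≤ (1 + δ / 2) ^ finrank ℝ E * μ.real L := by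
      refine le_trans ?_ h3
      gcongr
    have h5 : (F.card : ℝ) * ((δ / 4) ^ finrank ℝ E) ≤ (1 + δ / 2) ^ finrank ℝ E := by
      have h6 : (F.card : ℝ) * ((δ / 4) ^ finrank ℝ E) * μ.real L
          ≤ (1 + δ / 2) ^ finrank ℝ E * μ.real L := by
        refine le_trans (le_of_eq ?_) h4
        have : (δ / 4 : ℝ) = δ / 2 * (1 / 2) := by ring
        rw [this, mul_pow]
        ring
      exact le_of_mul_le_mul_right h6 hL0
    have h7 : (F.card : ℝ) ≤ (1 + δ / 2) ^ finrank ℝ E / (δ / 4) ^ finrank ℝ E := by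
      rw [le_div_iff₀ (by positivity)]
      exact h5
    refine h7.trans (le_of_eq ?_)
    rw [← div_pow]
    congr 1
    field_simp
    ring
  -- a maximal separated set
  set P : Finset E → Prop := fun F => (∀ y ∈ F, y ∈ L) ∧
    (∀ x ∈ F, ∀ y ∈ F, x ≠ y → ∀ v ∈ M, x ≠ y + δ • v) with hP
  obtain ⟨N, hN⟩ := exists_nat_ge ((4 / δ + 2) ^ finrank ℝ E)
  have hbd : BddAbove (Finset.card '' {F : Finset E | P F}) := by
    refine ⟨N, ?_⟩
    rintro _ ⟨F, hF, rfl⟩
    exact_mod_cast (hcard F hF.1 hF.2).trans hN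
  have hne : (Finset.card '' {F : Finset E | P F}).Nonempty :=
    ⟨_, ∅, ⟨by simp, by simp⟩, rfl⟩
  obtain ⟨Λ, hΛ, hΛc⟩ := Nat.sSup_mem hne hbd
  refine ⟨c, Λ, hΛ.1, hcard Λ hΛ.1 hΛ.2, fun x hx => ?_⟩
  have key : ∃ y ∈ Λ, ∃ v ∈ M, x = y + δ • v := by
    by_contra hcon
    push Not at hcon
    have hxΛ : x ∉ Λ := by
      intro hxΛ
      have h0M : (0 : E) ∈ M := by
        have hpos : 0 < μ.real M := lt_of_lt_of_le (by positivity) hcM
        have hneM : M.Nonempty := by
          by_contra hemp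
          rw [Set.not_nonempty_iff_eq_empty] at hemp
          rw [hemp] at hpos
          simp at hpos
        obtain ⟨v, hv⟩ := hneM
        have := hMconv v hv _ (hMsymm v hv)
        simpa using this
      exact hcon x hxΛ 0 h0M (by simp)
    have hPins : P (insert x Λ) := by
      refine ⟨fun y hy => ?_, fun a ha b hb hab v hv => ?_⟩
      · rcases Finset.mem_insert.1 hy with h | h
        · rw [h]; exact hx
        · exact hΛ.1 y h
      · rcases Finset.mem_insert.1 ha with h | h <;> rcases Finset.mem_insert.1 hb with h' | h'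
        · exact absurd (h.trans h'.symm) hab
        · rw [h]; exact hcon b h' v hv
        · rw [h']
          intro hax
          apply hcon a h (-v) (hMsymm v hv)
          rw [hax, smul_neg]
          abel
        · exact hΛ.2 a h b h' hab v hv
    have := le_csSup hbd ⟨insert x Λ, hPins, rfl⟩
    rw [← hΛc, Finset.card_insert_of_notMem hxΛ] at this
    omega
  obtain ⟨y, hy, v, hv, hxy⟩ := key
  exact ⟨y, hy, c + v, hv.1, by rw [hxy]; simp⟩

end Pool.Agent.Lib.MP_5e7226_co.AB
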