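import Pool.Agent.Lib.MP_5e7226_co.AB.A2

/-!
Every convex body is covered by few translates of a smaller homothetic copy.
-/

set_option autoImplicit false
set_option linter.unusedSectionVars false

open MeasureTheory Set Module
open scoped Pointwise

namespace Pool.Agent.Lib.MP_5e7226_co.AB

variable {E : Type*} [NormedAddCommGroup E] [NormedSpace ℝ E] [FiniteDimensional ℝ E]
  [MeasurableSpace E] [BorelSpace E] (μ : Measure E) [μ.IsAddHaarMeasure]

/-- Hitting a finite subset of `K` by translates of `lam • K`. -/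
lemma hit_homothet {K : Set E} (hc : Convex ℝ K) (hK : IsCompact K) (h0 : μ K ≠ 0) {lam : ℝ}
    (hlam : 0 < lam) (R : Finset E) (hR : R.Nonempty) (hRK : ∀ x ∈ R, x ∈ K) :
    ∃ t : E, (R.card : ℝ) * ((lam / (1 + lam)) ^ finrank ℝ E)
      ≤ ∑ x ∈ R, ind (lam • K) (x - t) := by
  have hm : MeasurableSet K := hK.isClosed.measurableSet
  have hfin : μ K ≠ ⊤ := hK.measure_lt_top.ne
  have hK0 : 0 < μ.real K := ENNReal.toReal_pos h0 hfin
  have hr : ∀ r : ℝ, 0 < r → μ.real (r • K) = r ^ finrank ℝ E * μ.real K := by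
    intro r hr
    rw [Measure.real, Measure.addHaar_smul, ENNReal.toReal_mul, abs_of_nonneg (by positivity),
      ENNReal.toReal_ofReal (by positivity)]
    rfl
  have hfin' : ∀ r : ℝ, μ (r • K) ≠ ⊤ := fun r => (hK.smul r).measure_lt_top.ne
  obtain ⟨t, ht⟩ := exists_hit μ (hm.const_smul₀ lam) (hfin' lam) (hm.const_smul₀ (1 + lam))
    (hfin' (1 + lam)) (by rw [hr lam hlam]; positivity) R hR (by
      intro x hx w hw
      obtain ⟨k, hk, hk'⟩ := hw
      simp only at hk'
      refine ⟨(1 / (1 + lam)) • x + (lam / (1 + lam)) • k, hc (hRK x hx) hk (by positivity)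
        (by positivity) (by field_simp), ?_⟩
      simp only
      have h1 : w = x + lam • k := by rw [hk']; abel
      have h2 : (1 + lam : ℝ) ≠ 0 := by positivity
      rw [h1, smul_add, smul_smul, smul_smul, mul_one_div_cancel h2, one_smul,
        mul_div_cancel₀ _ h2])
  refine ⟨t, le_trans (le_of_eq ?_) ht⟩
  rw [hr lam hlam, hr (1 + lam) (by positivity), div_pow, mul_div_mul_right _ _ hK0.ne']

/-- Every convex body `K` in dimension `d` is covered by `n` translates of `(lam + δ) K` if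
`n > (1 + 1 / lam)^d d log (4 / δ + 2)`. -/
theorem cover_homothet {K : Set E} (hc : Convex ℝ K) (hK : IsCompact K) (h0 : μ K ≠ 0) {lam δ : ℝ}
    (hlam : 0 < lam) (hδ : 0 < δ) {n : ℕ}
    (hn : (1 + 1 / lam) ^ finrank ℝ E * (finrank ℝ E * Real.log (4 / δ + 2)) < n) :
    ∃ t : Fin n → E, ∀ x ∈ K, ∃ i, ∃ k ∈ K, x = t i + (lam + δ) • k := by
  obtain ⟨c, Λ, hΛK, hΛc, hnet⟩ := exists_net μ hc hK h0 hδ
  set p : ℝ := (lam / (1 + lam)) ^ finrank ℝ E with hp
  have hp0 : 0 < p := by positivity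
  have hp1 : p ≤ 1 := by
    refine pow_le_one₀ (by positivity) ?_
    rw [div_le_one (by positivity)]
    linarith
  have hinv : p * (1 + 1 / lam) ^ finrank ℝ E = 1 := by
    rw [hp, ← mul_pow]
    have : lam / (1 + lam) * (1 + 1 / lam) = 1 := by
      have h1 : (1 + lam : ℝ) ≠ 0 := by positivity
      field_simp
      ring
    rw [this, one_pow]
  have hKne : K.Nonempty := by
    by_contra h
    rw [Set.not_nonempty_iff_eq_empty] at h
    rw [h] at h0
    simp at h0
  have hΛpos : (0 : ℝ) < Λ.card := by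
    obtain ⟨x, hx⟩ := hKne
    obtain ⟨y, hy, _⟩ := hnet x hx
    exact_mod_cast Finset.card_pos.2 ⟨y, hy⟩
  have hlog : Real.log Λ.card < n * p := by
    have h1 : Real.log Λ.card ≤ finrank ℝ E * Real.log (4 / δ + 2) := by
      rw [← Real.log_pow]
      exact Real.log_le_log hΛpos hΛc
    have h2 : p * ((1 + 1 / lam) ^ finrank ℝ E * (finrank ℝ E * Real.log (4 / δ + 2))) < p * n :=
      mul_lt_mul_of_pos_left hn hp0
    rw [← mul_assoc, hinv, one_mul] at h2
    linarith
  obtain ⟨t, ht⟩ := greedy_cover Λ hp1 (fun R hR hne =>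
    hit_homothet μ hc hK h0 hlam R hne (fun x hx => hΛK x (hR hx))) hlog
  refine ⟨fun i => t i - δ • c, fun x hx => ?_⟩
  obtain ⟨y, hy, ℓ, hℓ, hxy⟩ := hnet x hx
  obtain ⟨i, k, hk, hk'⟩ := ht y hy
  simp only at hk'
  refine ⟨i, (lam / (lam + δ)) • k + (δ / (lam + δ)) • ℓ, hc hk hℓ (by positivity) (by positivity)
    (by field_simp), ?_⟩
  have h1 : y = t i + lam • k := by rw [hk']; abel
  have h2 : (lam + δ : ℝ) ≠ 0 := by positivity
  rw [hxy, h1, smul_add, smul_smul, smul_smul, mul_div_cancel₀ _ h2, mul_div_cancel₀ _ h2]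
  module

end Pool.Agent.Lib.MP_5e7226_co.AB
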