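import Pool.Agent.Lib.MP_5e7226_co.AB.A3

/-!
From covers by homothetic copies to hyperplanes separating the faces, and to illumination.
-/

set_option autoImplicit false
set_option linter.unusedSectionVars false

open MeasureTheory Set Module
open scoped Pointwise InnerProductSpace

namespace Pool.Agent.Lib.MP_5e7226_co.AB

variable {d : ℕ}

/-- the polar body of `K` at `o` -/
def pol (K : Set (EuclideanSpace ℝ (Fin d))) (o : EuclideanSpace ℝ (Fin d)) :
    Set (EuclideanSpace ℝ (Fin d)) :=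
  {x | ∀ y ∈ K, ⟪x, y - o⟫_ℝ ≤ 1}

lemma pol_convex (K : Set (EuclideanSpace ℝ (Fin d))) (o : EuclideanSpace ℝ (Fin d)) :
    Convex ℝ (pol K o) := by
  intro x hx y hy a b ha hb hab v hv
  rw [inner_add_left, inner_smul_left, inner_smul_left, conj_trivial, conj_trivial]
  have h1 := mul_le_mul_of_nonneg_left (hx v hv) ha
  have h2 := mul_le_mul_of_nonneg_left (hy v hv) hb
  linarith

lemma pol_isCompact {K : Set (EuclideanSpace ℝ (Fin d))} {o : EuclideanSpace ℝ (Fin d)}
    (ho : o ∈ interior K) : IsCompact (pol K o) := by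
  have hLclosed : IsClosed (pol K o) := by
    have : pol K o = ⋂ y ∈ K, {x : EuclideanSpace ℝ (Fin d) | ⟪x, y - o⟫_ℝ ≤ 1} := by
      ext x
      simp [pol]
    rw [this]
    exact isClosed_biInter fun y _ => isClosed_le (by fun_prop) continuous_const
  obtain ⟨r, hr, hball⟩ := Metric.isOpen_iff.1 isOpen_interior o ho
  have hLbd : ∀ x ∈ pol K o, ‖x‖ ≤ 2 / r := by
    intro x hx
    by_cases hx0 : x = 0
    · rw [hx0, norm_zero]
      positivity
    have hxn : 0 < ‖x‖ := norm_pos_iff.2 hx0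
    have hmem : o + (r / 2 / ‖x‖) • x ∈ K := by
      apply interior_subset
      apply hball
      rw [Metric.mem_ball, dist_eq_norm, add_sub_cancel_left, norm_smul, Real.norm_eq_abs,
        abs_of_pos (by positivity), div_mul_cancel₀ _ hxn.ne']
      linarith
    have h1 := hx _ hmem
    rw [add_sub_cancel_left, inner_smul_right, real_inner_self_eq_norm_sq] at h1
    have h2 : r / 2 / ‖x‖ * ‖x‖ ^ 2 = r / 2 * ‖x‖ := by
      field_simp
    rw [h2] at h1
    rw [le_div_iff₀ hr]
    linarith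
  refine Metric.isCompact_of_isClosed_isBounded hLclosed ?_
  exact (Metric.isBounded_closedBall (x := (0 : EuclideanSpace ℝ (Fin d)))
    (r := 2 / r)).subset fun x hx => mem_closedBall_zero_iff.2 (hLbd x hx)

lemma pol_volume {K : Set (EuclideanSpace ℝ (Fin d))} (hK : IsCompact K)
    (o : EuclideanSpace ℝ (Fin d)) : volume (pol K o) ≠ 0 := by
  obtain ⟨R, hR, hKR⟩ : ∃ R, 0 < R ∧ ∀ y ∈ K, ‖y - o‖ ≤ R := by
    obtain ⟨R, hR⟩ := hK.isBounded.exists_norm_le
    refine ⟨max (R + ‖o‖) 1, by positivity, fun y hy => ?_⟩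
    exact ((norm_sub_le y o).trans (add_le_add (hR y hy) le_rfl)).trans (le_max_left _ _)
  have hL0 : Metric.ball (0 : EuclideanSpace ℝ (Fin d)) (1 / R) ⊆ pol K o := by
    intro x hx y hy
    rw [mem_ball_zero_iff, lt_div_iff₀ hR] at hx
    calc ⟪x, y - o⟫_ℝ ≤ ‖x‖ * ‖y - o‖ := real_inner_le_norm _ _
      _ ≤ ‖x‖ * R := mul_le_mul_of_nonneg_left (hKR y hy) (norm_nonneg _)
      _ ≤ 1 := hx.le
  have h2 : 0 < volume (Metric.ball (0 : EuclideanSpace ℝ (Fin d)) (1 / R)) :=
    Metric.measure_ball_pos _ _ (by positivity)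
  exact (h2.trans_le (measure_mono hL0)).ne'

/-- A face of `K` gives a point `x` of the polar body with `⟪x, y - o⟫ = 1` on the face. -/
lemma face_point {K : Set (EuclideanSpace ℝ (Fin d))} {o : EuclideanSpace ℝ (Fin d)}
    (ho : o ∈ interior K) {u x₀ : EuclideanSpace ℝ (Fin d)} (hu : u ≠ 0)
    (hmax : ∀ y ∈ K, ⟪u, y⟫_ℝ ≤ ⟪u, x₀⟫_ℝ) :
    ∃ x ∈ pol K o, ∀ y, ⟪u, y⟫_ℝ = ⟪u, x₀⟫_ℝ → ⟪x, y - o⟫_ℝ = 1 := by
  obtain ⟨r, hr, hball⟩ := Metric.isOpen_iff.1 isOpen_interior o ho
  have hun : 0 < ‖u‖ := norm_pos_iff.2 hu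
  have hpos : 0 < ⟪u, x₀ - o⟫_ℝ := by
    have hmem : o + (r / 2 / ‖u‖) • u ∈ K := by
      apply interior_subset
      apply hball
      rw [Metric.mem_ball, dist_eq_norm, add_sub_cancel_left, norm_smul, Real.norm_eq_abs,
        abs_of_pos (by positivity), div_mul_cancel₀ _ hun.ne']
      linarith
    have h1 := hmax _ hmem
    rw [inner_add_right, inner_smul_right, real_inner_self_eq_norm_sq] at h1
    rw [inner_sub_right]
    have h2 : 0 < r / 2 / ‖u‖ * ‖u‖ ^ 2 := by positivity
    linarith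
  set h := ⟪u, x₀ - o⟫_ℝ with hh
  refine ⟨h⁻¹ • u, ?_, ?_⟩
  · intro y hy
    rw [inner_smul_left, conj_trivial, inv_mul_le_iff₀ hpos, mul_one, hh, inner_sub_right,
      inner_sub_right]
    linarith [hmax y hy]
  · intro y hy
    rw [inner_smul_left, conj_trivial, inner_sub_right, hy, ← inner_sub_right, ← hh,
      inv_mul_cancel₀ hpos.ne']

/-- `n` homothetic copies with ratio `m < 1` covering the polar body give `n` hyperplanes. -/
theorem separated_of_cover {K : Set (EuclideanSpace ℝ (Fin d))}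
    {o : EuclideanSpace ℝ (Fin d)} (ho : o ∈ interior K) {n : ℕ} {m : ℝ} (hm0 : 0 ≤ m)
    (hm : m < 1) (t : Fin n → EuclideanSpace ℝ (Fin d))
    (hcov : ∀ x ∈ pol K o, ∃ i, ∃ k ∈ pol K o, x = t i + m • k) :
    ∃ (w : Fin n → EuclideanSpace ℝ (Fin d)) (b : Fin n → ℝ),
      ∀ u x₀ : EuclideanSpace ℝ (Fin d), u ≠ 0 → x₀ ∈ K →
        (∀ y ∈ K, ⟪u, y⟫_ℝ ≤ ⟪u, x₀⟫_ℝ) →
          ∃ i, ⟪w i, o⟫_ℝ < b i ∧ ∀ x ∈ K, ⟪u, x⟫_ℝ = ⟪u, x₀⟫_ℝ → b i < ⟪w i, x⟫_ℝ := by
  refine ⟨t, fun i => ⟪t i, o⟫_ℝ + (1 - m) / 2, fun u x₀ hu _ hmax => ?_⟩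
  obtain ⟨x, hx, hx1⟩ := face_point ho hu hmax
  obtain ⟨i, k, hk, hxk⟩ := hcov x hx
  refine ⟨i, by linarith, fun y hy hyu => ?_⟩
  have h1 := hx1 y hyu
  have h2 := hk y hy
  rw [hxk, inner_add_left, inner_smul_left, conj_trivial, inner_sub_right] at h1
  have h3 : m * ⟪k, y - o⟫_ℝ ≤ m := by nlinarith
  linarith

/-- `n` homothetic copies with ratio `m < 1` covering `K` give `n` exterior points illuminating the
boundary of `K`. -/
theorem illuminated_of_cover (hd : 1 ≤ d) {K : Set (EuclideanSpace ℝ (Fin d))} (hc : Convex ℝ K)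
    (hK : IsCompact K) {z : EuclideanSpace ℝ (Fin d)} (hz : z ∈ interior K) {n : ℕ} {m : ℝ}
    (hm0 : 0 < m) (hm : m < 1) (t : Fin n → EuclideanSpace ℝ (Fin d))
    (hcov : ∀ x ∈ K, ∃ i, ∃ k ∈ K, x = t i + m • k) :
    ∃ p : Fin n → EuclideanSpace ℝ (Fin d), (∀ i, p i ∉ K) ∧
      ∀ q ∈ frontier K, ∃ i, ∃ s : ℝ, 0 < s ∧ q + s • (q - p i) ∈ interior K := by
  classical
  -- an exterior point
  obtain ⟨e, he⟩ : ∃ e, e ∉ K := by
    obtain ⟨R, hR⟩ := hK.isBounded.exists_norm_le
    refine ⟨EuclideanSpace.single (⟨0, by omega⟩ : Fin d) (|R| + 1), fun h => ?_⟩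
    have h1 := hR _ h
    rw [PiLp.norm_single, Real.norm_eq_abs, abs_of_pos (by positivity)] at h1
    linarith [le_abs_self R]
  -- `θ` small
  set s : ℝ := (1 - m) / m with hs
  have hs0 : 0 < s := div_pos (by linarith) hm0
  set θ : ℝ := s / (2 * (s + 1)) with hθ
  have hθ0 : 0 < θ := by positivity
  have hθ1 : θ < 1 := by
    rw [hθ, div_lt_one (by positivity)]
    linarith
  set s' : ℝ := (1 - θ) * s - θ with hs'
  have hs'0 : 0 < s' := by
    have : s' = s / 2 := by
      rw [hs', hθ]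
      field_simp
      ring
    rw [this]; positivity
  set f : Fin n → EuclideanSpace ℝ (Fin d) := fun i => (1 / (1 - m)) • t i with hf
  set p : Fin n → EuclideanSpace ℝ (Fin d) := fun i =>
    (1 / s') • (((1 - θ) * s) • f i - θ • z) with hp
  have key : ∀ q ∈ K, ∃ i, q + s' • (q - p i) ∈ interior K := by
    intro q hq
    obtain ⟨i, k, hk, hqk⟩ := hcov q hq
    refine ⟨i, ?_⟩
    have h1m : (1 - m : ℝ) ≠ 0 := by linarith
    have hk' : k = q + s • (q - f i) := by
      have : k = (1 / m) • (q - t i) := by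
        rw [hqk, add_sub_cancel_left, smul_smul, one_div_mul_cancel hm0.ne', one_smul]
      rw [this, hf, hs]
      simp only
      have e1 : (1 / m) • (q - t i) = (1 / m) • q - (1 / m) • t i := smul_sub _ _ _
      have e2 : ((1 - m) / m) • (q - (1 / (1 - m)) • t i)
          = ((1 - m) / m) • q - (1 / m) • t i := by
        rw [smul_sub, smul_smul]
        congr 2
        field_simp
      rw [e1, e2]
      have e3 : (1 / m) • q = q + ((1 - m) / m) • q := by
        nth_rewrite 2 [← one_smul ℝ q]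
        rw [← add_smul]
        congr 1
        field_simp
        ring
      rw [e3]
      abel
    have h2 : q + s' • (q - p i) = (1 - θ) • k + θ • z := by
      rw [hk', hp]
      simp only
      have e1 : s' • (q - (1 / s') • (((1 - θ) * s) • f i - θ • z))
          = s' • q - (((1 - θ) * s) • f i - θ • z) := by
        rw [smul_sub, smul_smul, mul_one_div_cancel hs'0.ne', one_smul]
      rw [e1, hs']
      module
    rw [h2]
    exact hc.combo_self_interior_mem_interior hk hz (by linarith) hθ0 (by ring)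
  refine ⟨fun i => if p i ∈ K then e else p i, fun i => ?_, fun q hq => ?_⟩
  · by_cases h : p i ∈ K
    · simp only [if_pos h]; exact he
    · simp only [if_neg h]; exact h
  · have hqK : q ∈ K := hK.isClosed.frontier_subset hq
    obtain ⟨i, hi⟩ := key q hqK
    refine ⟨i, s', hs'0, ?_⟩
    by_cases h : p i ∈ K
    · exfalso
      -- then `q` would be interior
      have h3 : q = (s' / (1 + s')) • p i + (1 / (1 + s')) • (q + s' • (q - p i)) := by
        have h4 : (1 + s' : ℝ) ≠ 0 := by positivity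
        have e1 : (1 / (1 + s')) • (q + s' • (q - p i))
            = q - (s' / (1 + s')) • p i := by
          have : q + s' • (q - p i) = (1 + s') • q - s' • p i := by module
          rw [this, smul_sub, smul_smul, smul_smul, one_div_mul_cancel h4, one_smul]
          congr 2
          ring
        rw [e1]
        abel
      have h5 : q ∈ interior K := by
        rw [h3]
        refine hc.combo_self_interior_mem_interior h hi (by positivity) (by positivity) ?_
        field_simp
        ring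
      exact hq.2 h5
    · simp only [h, if_false]; exact hi

end Pool.Agent.Lib.MP_5e7226_co.AB
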