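import Pool.Agent.Lib.MP_5e7226_co.AB.A4

/-!
Numerics, and the final bound `2 ^ d * (d log d + d log log d + 5 d)` for all convex bodies.
-/

set_option autoImplicit false
set_option linter.unusedSectionVars false

open MeasureTheory Set Module
open scoped Pointwise InnerProductSpace

namespace Pool.Agent.Lib.MP_5e7226_co.AB

lemma log_bound {L : ℝ} (hL : 0.69 ≤ L) :
    Real.log (L + 10) - Real.log L + (L + Real.log (L + 10) + 1.41) / (L + 8) ≤ 3.46 := by
  have hL0 : 0 < L := by linarith
  have h2 := Real.log_two_lt_d9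
  have hlog10 : Real.log 10 ≤ 2.3105 := by
    have h1 : Real.log ((10 : ℝ) ^ 3) ≤ Real.log ((2 : ℝ) ^ 10) :=
      Real.log_le_log (by norm_num) (by norm_num)
    rw [Real.log_pow, Real.log_pow] at h1
    push_cast at h1
    norm_num at h1 ⊢
    linarith
  have h10 : Real.log (L + 10) ≤ 2.3105 + L / 10 := by
    have : L + 10 = 10 * (1 + L / 10) := by ring
    rw [this, Real.log_mul (by norm_num) (by positivity)]
    have := Real.log_le_sub_one_of_pos (x := 1 + L / 10) (by positivity)
    linarith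
  have hX : (L + Real.log (L + 10) + 1.41) / (L + 8) ≤ (1.1 * L + 3.7205) / (L + 8) := by
    apply div_le_div_of_nonneg_right _ (by positivity)
    linarith
  have hdiv : Real.log (L + 10) - Real.log L = Real.log (1 + 10 / L) := by
    rw [← Real.log_div (by positivity) hL0.ne']
    congr 1
    field_simp
  rw [hdiv]
  rcases le_total L 3 with h3 | h3
  · have h4 : (1.1 * L + 3.7205) / (L + 8) ≤ 0.65 := by
      rw [div_le_iff₀ (by positivity)]
      linarith
    have h5 : Real.log (1 + 10 / L) ≤ 2.75 := by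
      have h6 : 1 + 10 / L ≤ 15.5 := by
        have : 10 / L ≤ 14.5 := by
          rw [div_le_iff₀ hL0]
          linarith
        linarith
      have h7 : Real.log (1 + 10 / L) ≤ Real.log 15.5 :=
        Real.log_le_log (by positivity) h6
      have h8 : 4 * Real.log 15.5 ≤ 11 := by
        have h9 : Real.log ((15.5 : ℝ) ^ 4) ≤ Real.log ((Real.exp 1) ^ 11) := by
          apply Real.log_le_log (by norm_num)
          have h10 : (2.7182818283 : ℝ) < Real.exp 1 := Real.exp_one_gt_d9
          calc (15.5 : ℝ) ^ 4 ≤ 2.7182818283 ^ 11 := by norm_num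
            _ ≤ Real.exp 1 ^ 11 := by
              exact pow_le_pow_left₀ (by norm_num) h10.le 11
        rw [Real.log_pow, Real.log_pow, Real.log_exp] at h9
        push_cast at h9
        linarith
      linarith
    linarith
  · have h4 : (1.1 * L + 3.7205) / (L + 8) ≤ 1.1 := by
      rw [div_le_iff₀ (by positivity)]
      linarith
    have h5 : Real.log (1 + 10 / L) ≤ 2 := by
      have h6 : 1 + 10 / L ≤ 7 := by
        have : 10 / L ≤ 6 := by
          rw [div_le_iff₀ hL0]
          linarith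
        linarith
      have h7 : Real.log (1 + 10 / L) ≤ Real.log 7 :=
        Real.log_le_log (by positivity) h6
      have h8 : Real.log 7 ≤ 2 := by
        have h9 : Real.log (7 : ℝ) ≤ Real.log ((Real.exp 1) ^ 2) := by
          apply Real.log_le_log (by norm_num)
          have h10 : (2.7182818283 : ℝ) < Real.exp 1 := Real.exp_one_gt_d9
          calc (7 : ℝ) ≤ 2.7182818283 ^ 2 := by norm_num
            _ ≤ Real.exp 1 ^ 2 := by
              exact pow_le_pow_left₀ (by norm_num) h10.le 2
        rw [Real.log_pow, Real.log_exp] at h9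
        push_cast at h9
        linarith
      linarith
    linarith

lemma numerics {d : ℕ} (hd : 2 ≤ d) : ∃ lam δ : ℝ, 0 < lam ∧ 0 < δ ∧ lam + δ < 1 ∧
    (1 + 1 / lam) ^ d * (d * Real.log (4 / δ + 2)) + 1
      ≤ 2 ^ d * (d * Real.log d + d * Real.log (Real.log d) + 5 * d) := by
  have hD : (2 : ℝ) ≤ d := by exact_mod_cast hd
  have hD0 : (0 : ℝ) < d := by linarith
  set L : ℝ := Real.log d with hLdef
  have h2 := Real.log_two_lt_d9
  have hL : 0.69 ≤ L := by
    have h1 := Real.log_two_gt_d9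
    have h3 : Real.log 2 ≤ L := Real.log_le_log (by norm_num) hD
    norm_num at h1 h3 ⊢
    linarith
  have hL0 : 0 < L := by linarith
  set w : ℝ := 1 / (L + 10) with hw
  have hw0 : 0 < w := by positivity
  have hw1 : w ≤ 0.1 := by
    rw [hw, div_le_iff₀ (by positivity)]
    linarith
  set δ : ℝ := w / d with hδ
  have hδ0 : 0 < δ := by positivity
  have hδd : d * δ = w := by
    rw [hδ]; field_simp
  have hδw : 2 * δ ≤ w := by
    rw [← hδd]
    exact mul_le_mul_of_nonneg_right hD hδ0.le
  have hlam : 0 < 1 - 2 * δ := by linarith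
  refine ⟨1 - 2 * δ, δ, hlam, hδ0, by linarith, ?_⟩
  -- the factor
  have hF : (1 + 1 / (1 - 2 * δ)) ^ d ≤ 2 ^ d * (1 + 1 / (L + 8)) := by
    have e1 : 1 + 1 / (1 - 2 * δ) = 2 * (1 + δ / (1 - 2 * δ)) := by
      field_simp
      ring
    rw [e1, mul_pow]
    apply mul_le_mul_of_nonneg_left _ (by positivity)
    have h3 : δ / (1 - 2 * δ) ≤ δ / (1 - w) :=
      div_le_div_of_nonneg_left hδ0.le (by linarith) (by linarith)
    have h4 : 1 + δ / (1 - 2 * δ) ≤ Real.exp (δ / (1 - w)) := by
      have := Real.add_one_le_exp (δ / (1 - w))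
      linarith
    have h5 : (1 + δ / (1 - 2 * δ)) ^ d ≤ Real.exp (δ / (1 - w)) ^ d :=
      pow_le_pow_left₀ (by positivity) h4 d
    rw [← Real.exp_nat_mul] at h5
    have e2 : (d : ℝ) * (δ / (1 - w)) = 1 / (L + 9) := by
      rw [← mul_div_assoc, hδd, hw]
      have e3 : 1 - 1 / (L + 10) = (L + 9) / (L + 10) := by
        field_simp
        ring
      rw [e3]
      field_simp
    rw [e2] at h5
    have h6 : Real.exp (1 / (L + 9)) ≤ 1 + 1 / (L + 8) := by
      have h7 := Real.add_one_le_exp (-(1 / (L + 9)))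
      have h8 : 0 < 1 - 1 / (L + 9) := by
        rw [sub_pos, div_lt_one (by positivity)]
        linarith
      have h9 : Real.exp (1 / (L + 9)) ≤ 1 / (1 - 1 / (L + 9)) := by
        rw [le_div_iff₀ h8]
        calc Real.exp (1 / (L + 9)) * (1 - 1 / (L + 9))
            ≤ Real.exp (1 / (L + 9)) * Real.exp (-(1 / (L + 9))) := by
              apply mul_le_mul_of_nonneg_left _ (Real.exp_pos _).le
              linarith
          _ = 1 := by rw [← Real.exp_add]; simp
      refine h9.trans (le_of_eq ?_)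
      have e3 : 1 - 1 / (L + 9) = (L + 8) / (L + 9) := by
        field_simp
        ring
      rw [e3]
      field_simp
      ring
    exact h5.trans h6
  have hlog : Real.log (4 / δ + 2) ≤ L + Real.log (L + 10) + 1.41 := by
    have e1 : 4 / δ + 2 = 4 * (d * (L + 10)) * (1 + 1 / (2 * (d * (L + 10)))) := by
      rw [hδ, hw]
      field_simp
      ring
    rw [e1, Real.log_mul (by positivity) (by positivity), Real.log_mul (by norm_num) (by positivity),
      Real.log_mul (by positivity) (by positivity)]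
    have h3 : Real.log 4 ≤ 1.3863 := by
      have : (4 : ℝ) = 2 ^ 2 := by norm_num
      rw [this, Real.log_pow]
      push_cast
      norm_num at h2 ⊢
      linarith
    have h4 := Real.log_le_sub_one_of_pos (x := 1 + 1 / (2 * (d * (L + 10)))) (by positivity)
    have h5 : 1 / (2 * (d * (L + 10))) ≤ (0.0235 : ℝ) := by
      rw [div_le_iff₀ (by positivity)]
      nlinarith
    have e3 : Real.log (d : ℝ) = L := rfl
    rw [e3]
    have e4 : (1.41 : ℝ) = 1.3863 + 0.0237 := by norm_num
    have e5 : (0.0235 : ℝ) ≤ 0.0237 := by norm_num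
    linarith
  have hlog0 : 0 ≤ Real.log (4 / δ + 2) := by
    apply Real.log_nonneg
    have : 0 < 4 / δ := by positivity
    linarith
  have hkey := log_bound hL
  have hmain : (1 + 1 / (L + 8)) * (L + Real.log (L + 10) + 1.41) + 0.125
      ≤ L + Real.log L + 5 := by
    have e1 : (1 + 1 / (L + 8)) * (L + Real.log (L + 10) + 1.41)
        = (L + Real.log (L + 10) + 1.41) + (L + Real.log (L + 10) + 1.41) / (L + 8) := by
      field_simp
    rw [e1]
    norm_num at hkey ⊢
    linarith
  have h8 : (1 : ℝ) ≤ 2 ^ d * d * 0.125 := by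
    have h9 : (4 : ℝ) ≤ 2 ^ d := by
      calc (4 : ℝ) = 2 ^ 2 := by norm_num
        _ ≤ 2 ^ d := pow_le_pow_right₀ (by norm_num) hd
    nlinarith
  have hX0 : 0 ≤ L + Real.log (L + 10) + 1.41 := hlog0.trans hlog
  calc (1 + 1 / (1 - 2 * δ)) ^ d * (d * Real.log (4 / δ + 2)) + 1
      ≤ (2 ^ d * (1 + 1 / (L + 8))) * (d * (L + Real.log (L + 10) + 1.41))
          + 2 ^ d * d * 0.125 := by
        apply add_le_add _ h8
        apply mul_le_mul hF _ (by positivity) (by positivity)
        exact mul_le_mul_of_nonneg_left hlog hD0.le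
    _ = 2 ^ d * d * ((1 + 1 / (L + 8)) * (L + Real.log (L + 10) + 1.41) + 0.125) := by ring
    _ ≤ 2 ^ d * d * (L + Real.log L + 5) := by
        apply mul_le_mul_of_nonneg_left hmain (by positivity)
    _ = 2 ^ d * (d * L + d * Real.log L + 5 * d) := by ring

/-- covering by few smaller homothetic copies; the number of copies depends on the dimension only -/
theorem cover_final {d : ℕ} (hd : 2 ≤ d) :
    ∃ n : ℕ, (n : ℝ) ≤ 2 ^ d * (d * Real.log d + d * Real.log (Real.log d) + 5 * d) ∧
      ∀ K : Set (EuclideanSpace ℝ (Fin d)), Convex ℝ K → IsCompact K → volume K ≠ 0 →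
        ∃ m : ℝ, 0 < m ∧ m < 1 ∧ ∃ t : Fin n → EuclideanSpace ℝ (Fin d),
          ∀ x ∈ K, ∃ i, ∃ k ∈ K, x = t i + m • k := by
  obtain ⟨lam, δ, hlam, hδ, h1, hB⟩ := numerics hd
  set B : ℝ := (1 + 1 / lam) ^ d * (d * Real.log (4 / δ + 2)) with hBdef
  have hB0 : 0 ≤ B := by
    have : 0 ≤ Real.log (4 / δ + 2) := by
      apply Real.log_nonneg
      have : 0 < 4 / δ := by positivity
      linarith
    positivity
  refine ⟨⌊B⌋₊ + 1, ?_, fun K hc hK h0 => ⟨lam + δ, by positivity, h1, ?_⟩⟩
  · push_cast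
    linarith [Nat.floor_le hB0]
  · apply cover_homothet volume hc hK h0 hlam hδ
    rw [finrank_euclideanSpace_fin]
    push_cast
    exact Nat.lt_floor_add_one B

/-- The bound for all convex bodies: separation of the faces from any interior point, and
illumination of the boundary. -/
theorem general_bound {d : ℕ} (hd : 2 ≤ d) :
    ∃ n : ℕ, (n : ℝ) ≤ 2 ^ d * (d * Real.log d + d * Real.log (Real.log d) + 5 * d) ∧
      ∀ K : Set (EuclideanSpace ℝ (Fin d)), Convex ℝ K → IsCompact K →
        (∀ o ∈ interior K, ∃ (w : Fin n → EuclideanSpace ℝ (Fin d)) (b : Fin n → ℝ),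
          ∀ u x₀ : EuclideanSpace ℝ (Fin d), u ≠ 0 → x₀ ∈ K →
            (∀ y ∈ K, ⟪u, y⟫_ℝ ≤ ⟪u, x₀⟫_ℝ) →
              ∃ i, ⟪w i, o⟫_ℝ < b i ∧ ∀ x ∈ K, ⟪u, x⟫_ℝ = ⟪u, x₀⟫_ℝ → b i < ⟪w i, x⟫_ℝ) ∧
        ((interior K).Nonempty → ∃ p : Fin n → EuclideanSpace ℝ (Fin d), (∀ i, p i ∉ K) ∧
          ∀ q ∈ frontier K, ∃ i, ∃ s : ℝ, 0 < s ∧ q + s • (q - p i) ∈ interior K) := by
  obtain ⟨n, hn, H⟩ := cover_final hd
  refine ⟨n, hn, fun K hc hK => ⟨fun o ho => ?_, fun hne => ?_⟩⟩
  · obtain ⟨m, hm0, hm1, t, ht⟩ :=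
      H (pol K o) (pol_convex K o) (pol_isCompact ho) (pol_volume hK o)
    exact separated_of_cover ho hm0.le hm1 t ht
  · obtain ⟨z, hz⟩ := hne
    have h0 : volume K ≠ 0 := by
      have h1 : 0 < volume (interior K) := isOpen_interior.measure_pos _ ⟨z, hz⟩
      exact (h1.trans_le (measure_mono interior_subset)).ne'
    obtain ⟨m, hm0, hm1, t, ht⟩ := H K hc hK h0
    exact illuminated_of_cover (by omega) hc hK hz hm0 hm1 t ht

end Pool.Agent.Lib.MP_5e7226_co.AB
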